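import Pool.Agent.R974.AT.Final

open MeasureTheory ProbabilityTheory Filter Topology Set
open scoped ENNReal NNReal

namespace Pool.Agent.Results.MP_097655_pr.Diffuse

/-- The span set `{t - s : 0 ≤ s ≤ t ≤ 1, w t = w s}` of a path `w`, as a subset of `ℝ`. -/
def spanSet (w : ℝ≥0 → ℝ) : Set ℝ :=
  {h | ∃ s t : ℝ≥0, s ≤ t ∧ t ≤ 1 ∧ w t = w s ∧ h = (t : ℝ) - s}

/-- `S₁`: the Lebesgue measure of the span set. -/
noncomputable def spanMeasure (w : ℝ≥0 → ℝ) : ℝ := (volume (spanSet w)).toReal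

/-- `T₁`: the infimum of the positive reals which are not in the span set. -/
noncomputable def firstGap (w : ℝ≥0 → ℝ) : ℝ := sInf {t : ℝ | 0 < t ∧ t ∉ spanSet w}

/-- `R`: the supremum of the lengths `q - p` of the complete excursions `(p, q)` of the path from
all levels `x` up to time `1`. -/
noncomputable def longestExcursion (w : ℝ≥0 → ℝ) : ℝ :=
  sSup {l : ℝ | ∃ x : ℝ, ∃ p q : ℝ≥0, p < q ∧ q ≤ 1 ∧ w p = x ∧ w q = x ∧
    (∀ u, p < u → u < q → w u ≠ x) ∧ l = (q : ℝ) - p}

lemma spanSet_eq (w : ℝ≥0 → ℝ) : spanSet w = R974.AT.Sp w 1 := by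
  ext h
  constructor
  · rintro ⟨s, t, h1, h2, h3, h4⟩
    exact ⟨s, t, h1, h2, h3.symm, h4⟩
  · rintro ⟨s, t, h1, h2, h3, h4⟩
    exact ⟨s, t, h1, h2, h3.symm, h4⟩

lemma spanMeasure_eq (w : ℝ≥0 → ℝ) : spanMeasure w = R974.AT.SS w 1 := by
  unfold spanMeasure R974.AT.SS
  rw [spanSet_eq]

lemma firstGap_eq (w : ℝ≥0 → ℝ) : firstGap w = R974.AT.TT w 1 := by
  unfold firstGap R974.AT.TT
  rw [spanSet_eq]

lemma longestExcursion_eq (w : ℝ≥0 → ℝ) : longestExcursion w = R974.AT.RR w 1 := by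
  unfold longestExcursion R974.AT.RR
  congr 1
  ext l
  constructor
  · rintro ⟨x, p, q, h1, h2, h3, h4, h5, h6⟩
    exact ⟨p, q, h1, h2, by rw [h3, h4], fun u hu hq => by rw [h3]; exact h5 u hu hq, h6⟩
  · rintro ⟨p, q, h1, h2, h3, h4, h5⟩
    exact ⟨w p, p, q, h1, h2, rfl, h3.symm, h4, h5⟩

/-- **The Lebesgue measure of the Brownian span set, its first gap and the longest complete
excursion have diffuse laws.** -/
theorem result {Ω : Type*} [MeasurableSpace Ω] {P : Measure Ω} {B : ℝ≥0 → Ω → ℝ}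
    (hB : IsBrownianReal B P) :
    (∀ c : ℝ, P {ω | spanMeasure (fun t => B t ω) = c} = 0) ∧
    (∀ c : ℝ, P {ω | firstGap (fun t => B t ω) = c} = 0) ∧
    (∀ c : ℝ, P {ω | longestExcursion (fun t => B t ω) = c} = 0) := by
  obtain ⟨B', hB', hBB'⟩ := Pool.Agent.R974.Span.good_version hB
  have hpath : ∀ᵐ ω ∂P, (fun t => B t ω) = fun t => B' t ω := by
    filter_upwards [hBB'] with ω hω
    funext t
    exact (hω t).symm
  refine ⟨fun c => ?_, fun c => ?_, fun c => ?_⟩
  · rw [← R974.AT.ss_no_atom hB' c]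
    refine measure_congr ?_
    filter_upwards [hpath] with ω hω
    have : (spanMeasure (fun t => B t ω) = c) = (R974.AT.SS (fun t => B' t ω) 1 = c) := by
      rw [hω, spanMeasure_eq]
    exact this
  · rw [← R974.AT.tt_no_atom hB' c]
    refine measure_congr ?_
    filter_upwards [hpath] with ω hω
    have : (firstGap (fun t => B t ω) = c) = (R974.AT.TT (fun t => B' t ω) 1 = c) := by
      rw [hω, firstGap_eq]
    exact this
  · rw [← R974.AT.rr_no_atom hB' c]
    refine measure_congr ?_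
    filter_upwards [hpath] with ω hω
    have : (longestExcursion (fun t => B t ω) = c) = (R974.AT.RR (fun t => B' t ω) 1 = c) := by
      rw [hω, longestExcursion_eq]
    exact this

end Pool.Agent.Results.MP_097655_pr.Diffuse
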